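import Pool.Agent.H60.LQ.Stmts
import Pool.Agent.H36.Dense.X6

/-!
# LQ, row HCB: from the gain to the counting form
-/

set_option autoImplicit false

namespace Pool.LQ

open Finset Real
open Pool.Agent.H49.Ent Pool.Agent.H32.Dense Pool.Agent.H24.KTH
open Pool.Agent.H36.Dense (Sp wt wt_nonneg sum_fiber wt_pos sum_wt law_line law_full Kf_bound)

section Space

variable {N d : ℕ} (A : Fin N → Finset ℤ)

/-- The family attached to sets of times. -/
lemma hcb_fam {J : ℕ} {u : Fin N → Fin d → ℝ} {v : Fin N → Fin d → ℤ} (hN : 0 < N)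
    (hne : ∀ i, (A i).Nonempty) (hinj : Function.Injective v) (hv : ∀ i k, |v i k| ≤ 2 ^ J)
    (hA : ∀ i, A i ⊆ Finset.Ico 0 (2 ^ J : ℤ)) :
    IsFam (2 ^ J) (wt A) (fun _ : Sp A => ()) (fun ω => v ω.1) (fun ω => u ω.1)
      (fun ω => (ω.2 : ℤ)) := by
  refine ⟨by positivity, wt_nonneg A, sum_wt A hN hne, ?_, ?_, ?_⟩
  · intro ω _ k
    have := hv ω.1 k
    push_cast
    exact this
  · intro ω ω' _ _ hh
    have : ω.1 = ω'.1 := hinj (Prod.ext_iff.mp hh).1
    simp only [this]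
  · intro ω _
    have := hA ω.1 ω.2.2
    rw [Finset.mem_Ico] at this
    push_cast
    exact this

/-- The entropy of the line. -/
lemma hcb_line {v : Fin N → Fin d → ℤ} (hN : 0 < N) (hne : ∀ i, (A i).Nonempty)
    (hinj : Function.Injective v) :
    CH (wt A) (fun ω : Sp A => v ω.1) (fun _ => ()) = Real.log N := by
  have hvi : Function.Injective fun i : Fin N => (v i, ()) := by
    intro i j hij
    exact hinj (Prod.ext_iff.mp hij).1
  rw [CH_eq_neg_sum (wt_nonneg A)]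
  have e1 : ∀ ω : Sp A, law (wt A) (fun ω : Sp A => (v ω.1, ())) (v ω.1, ()) /
      law (wt A) (fun _ : Sp A => ()) () = (N : ℝ)⁻¹ := by
    intro ω
    have e2 : law (wt A) (fun _ : Sp A => ()) () = 1 := by
      unfold law
      simp only [if_true]
      exact sum_wt A hN hne
    rw [e2, div_one]
    exact law_line A (fun i => (v i, ())) hne hvi ω.1
  have e3 : Ex (wt A) (fun ω : Sp A => -Real.log (law (wt A) (fun ω : Sp A => (v ω.1, ()))
      (v ω.1, ()) / law (wt A) (fun _ : Sp A => ()) ())) =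
      Ex (wt A) (fun _ => Real.log N) := by
    unfold Ex
    refine Finset.sum_congr rfl fun ω _ => ?_
    beta_reduce
    rw [e1 ω, Real.log_inv, neg_neg]
  rw [e3, Ex_const (sum_wt A hN hne)]

/-- The entropy of the point. -/
lemma hcb_point (h1 : SBPStmt) {J : ℕ} {u : Fin N → Fin d → ℝ} {v : Fin N → Fin d → ℤ}
    (hN : 0 < N) (hne : ∀ i, (A i).Nonempty) (hinj : Function.Injective v)
    (hv : ∀ i k, |v i k| ≤ 2 ^ J) (hA : ∀ i, A i ⊆ Finset.Ico 0 (2 ^ J : ℤ)) :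
    Sb (2 ^ J) (wt A) (fun _ : Sp A => ()) (fun ω => v ω.1) (fun ω => u ω.1)
      (fun ω => (ω.2 : ℤ)) ≤ Real.log (∑ j ∈ Finset.Ico 0 (2 ^ J : ℤ), cl J u v A j) := by
  classical
  have hfam := hcb_fam A (u := u) hN hne hinj hv hA
  obtain ⟨hs, -, -⟩ := h1 d J (Sp A) Unit (wt A) (fun _ => ()) (fun ω => v ω.1)
    (fun ω => u ω.1) (fun ω => (ω.2 : ℤ)) hfam
  rw [hs]
  set F : Finset (ℤ × (Fin d → ℤ)) := (Finset.Ico 0 (2 ^ J : ℤ)).biUnion fun j =>
    ((univ.filter fun i => j ∈ A i).image fun i => rd (pos (2 ^ J) (u i) (v i) j)).image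
      fun x => (j, x) with hF
  have hmem : ∀ ω : Sp A, ((ω.2 : ℤ), rd (pos (2 ^ J) (u ω.1) (v ω.1) (ω.2 : ℤ))) ∈ F := by
    intro ω
    rw [hF, Finset.mem_biUnion]
    refine ⟨(ω.2 : ℤ), hA ω.1 ω.2.2, ?_⟩
    rw [Finset.mem_image]
    exact ⟨_, Finset.mem_image_of_mem _
      (Finset.mem_filter.mpr ⟨Finset.mem_univ ω.1, ω.2.2⟩), rfl⟩
  have h2 := CH_le_card (wt_nonneg A) (sum_wt A hN hne)
    (fun ω : Sp A => ((ω.2 : ℤ), rd (pos (2 ^ J) (u ω.1) (v ω.1) (ω.2 : ℤ)))) (fun _ => ())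
    (fun _ => F) (fun ω _ => hmem ω)
  rw [Ex_const (sum_wt A hN hne)] at h2
  refine h2.trans ?_
  have hpos : (0 : ℝ) < (F.card : ℝ) := by
    obtain ⟨j, hj⟩ := hne ⟨0, hN⟩
    have : 0 < F.card := Finset.card_pos.mpr ⟨_, hmem ⟨⟨0, hN⟩, ⟨j, hj⟩⟩⟩
    exact_mod_cast this
  refine Real.log_le_log hpos ?_
  have hc : F.card ≤ ∑ j ∈ Finset.Ico 0 (2 ^ J : ℤ),
      ((univ.filter fun i => j ∈ A i).image fun i => rd (pos (2 ^ J) (u i) (v i) j)).card := by
    rw [hF]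
    exact Finset.card_biUnion_le.trans (Finset.sum_le_sum fun j _ => Finset.card_image_le)
  unfold cl
  exact_mod_cast hc

/-- The potentials of the times. -/
lemma hcb_pot {J : ℕ} {v : Fin N → Fin d → ℤ} (hne : ∀ i, (A i).Nonempty)
    (hinj : Function.Injective v) {G₀ : ℝ}
    (hG : ∀ i, ∀ x ∈ A i, ∑ y ∈ A i, ell (2 ^ J) x y ≤ G₀ * (A i).card) (ω : Sp A) :
    ∑ ω' : Sp A, (open Classical in if bv (fun _ : Sp A => ()) (fun ω => v ω.1) ω' =
      bv (fun _ : Sp A => ()) (fun ω => v ω.1) ω then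
      wt A ω' * ell (2 ^ J) (ω.2 : ℤ) (ω'.2 : ℤ) else 0) ≤
      G₀ * law (wt A) (bv (fun _ : Sp A => ()) (fun ω => v ω.1))
        (bv (fun _ : Sp A => ()) (fun ω => v ω.1) ω) := by
  classical
  have hvi : Function.Injective fun i : Fin N => (v i, ()) := by
    intro i j hij
    exact hinj (Prod.ext_iff.mp hij).1
  have hlaw : law (wt A) (bv (fun _ : Sp A => ()) (fun ω => v ω.1))
      (bv (fun _ : Sp A => ()) (fun ω => v ω.1) ω) = (N : ℝ)⁻¹ :=
    law_line A (fun i => (v i, ())) hne hvi ω.1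
  rw [hlaw, Fintype.sum_sigma, Finset.sum_eq_single ω.1]
  · have hc : ((A ω.1).card : ℝ) ≠ 0 := by
      exact_mod_cast (Finset.card_pos.mpr (hne ω.1)).ne'
    have e1 : ∀ y : {x : ℤ // x ∈ A ω.1},
        (if bv (fun _ : Sp A => ()) (fun ω => v ω.1) (⟨ω.1, y⟩ : Sp A) =
          bv (fun _ : Sp A => ()) (fun ω => v ω.1) ω then
          wt A (⟨ω.1, y⟩ : Sp A) * ell (2 ^ J) (ω.2 : ℤ) (y : ℤ) else 0) =
          (N : ℝ)⁻¹ * ((A ω.1).card : ℝ)⁻¹ * ell (2 ^ J) (ω.2 : ℤ) (y : ℤ) := by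
      intro y
      rw [if_pos (show bv (fun _ : Sp A => ()) (fun ω => v ω.1) (⟨ω.1, y⟩ : Sp A) =
        bv (fun _ : Sp A => ()) (fun ω => v ω.1) ω from rfl)]
      rfl
    rw [Finset.sum_congr rfl fun y _ => e1 y, ← Finset.mul_sum]
    have e2 : ∑ y : {x : ℤ // x ∈ A ω.1}, ell (2 ^ J) (ω.2 : ℤ) (y : ℤ) =
        ∑ y ∈ A ω.1, ell (2 ^ J) (ω.2 : ℤ) y :=
      Finset.sum_coe_sort (A ω.1) fun y => ell (2 ^ J) (ω.2 : ℤ) y
    rw [e2]
    have e3 := hG ω.1 ω.2 ω.2.2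
    have h0 : (0 : ℝ) ≤ (N : ℝ)⁻¹ * ((A ω.1).card : ℝ)⁻¹ := by positivity
    refine (mul_le_mul_of_nonneg_left e3 h0).trans (le_of_eq ?_)
    field_simp
  · intro j _ hj
    refine Finset.sum_eq_zero fun y _ => ?_
    rw [if_neg]
    intro h
    exact hj (hvi h)
  · intro h
    exact absurd (Finset.mem_univ _) h

end Space

/-- The inequality for large `J`. -/
lemma hcb_large (h1 : SBPStmt) (h2 : NRGStmt) (h3 : RDSStmt) (h4 : CAPStmt) {d : ℕ} {a Λ k : ℝ}
    (hd : 1 ≤ d) (hk : 0 ≤ k) (hka : 1 + k / d ≤ a) (haΛ : a ≤ Λ) (hG : GapG d a Λ k) {ε : ℝ}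
    (hε : 0 < ε) (G₀ : ℝ) :
    ∃ C : ℝ, ∃ J₀ : ℕ, ∀ J ≥ J₀, ∀ (N : ℕ) (u : Fin N → Fin d → ℝ)
    (v : Fin N → Fin d → ℤ) (A : Fin N → Finset ℤ) (κ : ℝ), 0 < N → 0 < κ →
    Function.Injective v →
    (∀ i k, |v i k| ≤ 2 ^ J) → (∀ i, A i ⊆ Finset.Ico 0 (2 ^ J : ℤ)) →
    (∀ i, κ * 2 ^ J ≤ (A i).card) →
    (∀ i, ∀ x ∈ A i, ∑ y ∈ A i, ell (2 ^ J) x y ≤ G₀ * (A i).card) →
    (1 + k / d) * Real.log N ≤
      a * (Real.log (∑ j ∈ Finset.Ico 0 (2 ^ J : ℤ), cl J u v A j) - J * Real.log 2) +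
        Λ * (-Real.log κ) + C + ε * J := by
  have hD : (0 : ℝ) < d := by exact_mod_cast hd
  have hkD : 0 ≤ k / d := by positivity
  have ha1 : 1 ≤ a := by linarith
  have hΛ : 0 ≤ Λ := by linarith
  obtain ⟨n, hn⟩ := exists_nat_ge (max 1 (4 * k / ε))
  have hn1 : (1 : ℝ) ≤ n := (le_max_left _ _).trans hn
  have hn0 : 0 < n := by
    have : (0 : ℝ) < n := by linarith
    exact_mod_cast this
  have hnpos : (0 : ℝ) < n := by linarith
  have hkn : k * (1 / n) ≤ ε / 4 := by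
    have h := (le_max_right _ _).trans hn
    rw [div_le_iff₀ hε] at h
    rw [mul_one_div, div_le_iff₀ hnpos]
    linarith
  have hε₁ : 0 < ε / (4 * (a + k + 1)) := by positivity
  set ε₁ := ε / (4 * (a + k + 1)) with hε₁d
  have hε₁' : (a + k) * ε₁ ≤ ε / 4 := by
    rw [hε₁d, mul_div_assoc', div_le_div_iff₀ (by positivity) (by norm_num)]
    nlinarith
  obtain ⟨C1, J₀, hR⟩ := h3 d n hn0 ε₁ hε₁
  obtain ⟨C2, hC⟩ := h4 d n hn0
  obtain ⟨B₀, B₁, hB₁, hGap⟩ := hG (ε / 4) (by positivity)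
  refine ⟨k / d * C2 + (1 + k / d) * C2 + Λ * C1 + B₀ + B₁ * ((n + 1) * G₀), J₀, ?_⟩
  intro J hJ N u v A κ hN hκ hinj hv hA hdens hpot
  have hM : (0 : ℝ) < (2 : ℝ) ^ J := by positivity
  have hne : ∀ i, (A i).Nonempty := by
    intro i
    rw [← Finset.card_pos]
    have : (0 : ℝ) < (A i).card := lt_of_lt_of_le (by positivity) (hdens i)
    exact_mod_cast this
  have hfam := hcb_fam A (u := u) hN hne hinj hv hA
  obtain ⟨w, hw, hfam', hK', hY', hS'⟩ := hR J hJ (Sp A) Unit (wt A) (fun _ => ())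
    (fun ω => v ω.1) (fun ω => u ω.1) (fun ω => (ω.2 : ℤ)) hfam
  have hg := hGap J (Sp A) _ (wt A) _ (fun ω => v ω.1) (fun ω => u ω.1) (fun ω => (ω.2 : ℤ)) hfam'
  have hE := h2 d J n (Sp A) Unit (wt A) (fun _ => ()) (fun ω => v ω.1) (fun ω => u ω.1)
    (fun ω => (ω.2 : ℤ)) w G₀ hfam hw (fun ω _ => by
      convert hcb_pot A hne hinj hpot ω)
  obtain ⟨-, c2, -, c4⟩ := hC J (Sp A) Unit (wt A) (fun _ => ()) (fun ω => v ω.1) w
    (wt_nonneg A) (sum_wt A hN hne) (fun ω _ k => hv ω.1 k) hw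
  have hline := hcb_line A hN hne hinj
  have hpoint := hcb_point A h1 (u := u) hN hne hinj hv hA
  have hvi : Function.Injective fun i : Fin N => (v i, ()) := by
    intro i j hij
    exact hinj (Prod.ext_iff.mp hij).1
  have hK : Kf (2 ^ J) (wt A) (bv (fun _ : Sp A => ()) (fun ω => v ω.1)) (fun ω => (ω.2 : ℤ)) ≤
      -Real.log κ :=
    Kf_bound A (fun i => (v i, ())) (2 ^ J) (by positivity) hN hne hvi hκ (by
      intro i
      push_cast
      exact hdens i)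
  have hh0 := CH_nonneg (wt_nonneg A)
    (fun ω : Sp A => cap J (lev J n (w ω)) (v ω.1)) (fun ω => (w ω, ()))
  rw [hline] at c2
  -- names for the quantities
  generalize hh : CH (wt A) (fun ω : Sp A => cap J (lev J n (w ω)) (v ω.1))
    (fun ω => (w ω, ())) = h at *
  generalize hLp : CH (wt A) (fun ω : Sp A => v ω.1)
    (fun ω => (cap J (lev J n (w ω)) (v ω.1), w ω, ())) = Lp at *
  generalize hSbp : Sb (2 ^ J) (wt A)
    (fun ω : Sp A => (cap J (lev J n (w ω)) (v ω.1), w ω, ())) (fun ω => v ω.1)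
    (fun ω => u ω.1) (fun ω => (ω.2 : ℤ)) = Sbp at *
  generalize hYp : Yf (2 ^ J) (wt A)
    (fun ω : Sp A => (cap J (lev J n (w ω)) (v ω.1), w ω, ())) (fun ω => v ω.1)
    (fun ω => u ω.1) (fun ω => (ω.2 : ℤ)) = Yp at *
  generalize hKp : Kf (2 ^ J) (wt A)
    (bv (fun ω : Sp A => (cap J (lev J n (w ω)) (v ω.1), w ω, ())) (fun ω => v ω.1))
    (fun ω => (ω.2 : ℤ)) = Kp at *
  generalize hGp : Gf (2 ^ J) (wt A)
    (bv (fun ω : Sp A => (cap J (lev J n (w ω)) (v ω.1), w ω, ())) (fun ω => v ω.1))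
    (fun ω => (ω.2 : ℤ)) = Gp at *
  generalize hKK : Kf (2 ^ J) (wt A) (bv (fun _ : Sp A => ()) (fun ω => v ω.1))
    (fun ω => (ω.2 : ℤ)) = KK at *
  generalize hSS : Sb (2 ^ J) (wt A) (fun _ : Sp A => ()) (fun ω => v ω.1) (fun ω => u ω.1)
      (fun ω => (ω.2 : ℤ)) = SS at *
  generalize Ex (wt A) (fun ω => (w ω : ℝ)) / n = e at *
  generalize Real.log (∑ j ∈ Finset.Ico 0 (2 ^ J : ℤ), cl J u v A j) = LS at *
  have hJ0 : (0 : ℝ) ≤ J := Nat.cast_nonneg J
  have hlog : Real.log 2 ≤ 1 := by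
    have := Real.log_two_lt_d9
    linarith
  have hlog0 : 0 ≤ Real.log 2 := Real.log_nonneg (by norm_num)
  -- the angle
  have p1 : k / d * (Lp - C2) ≤ k * ((1 - e) * (J * Real.log 2)) := by
    have q1 : (Lp - C2) / d ≤ (1 - e) * (J * Real.log 2) := by
      rw [div_le_iff₀ hD]
      linarith
    have q2 := mul_le_mul_of_nonneg_left q1 hk
    have q3 : k / d * (Lp - C2) = k * ((Lp - C2) / d) := by ring
    rw [q3]
    exact q2
  have p2 : k * Yp ≤ k * (e * (J * Real.log 2) + (1 / n + ε₁) * J) :=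
    mul_le_mul_of_nonneg_left hY' hk
  have p3 : Λ * Kp ≤ Λ * (KK + C1) := mul_le_mul_of_nonneg_left hK' hΛ
  have p4 : B₁ * Gp ≤ B₁ * ((n + 1) * G₀) := mul_le_mul_of_nonneg_left hE hB₁
  have p5 : a * Sbp ≤ a * (SS + ε₁ * J - h) :=
    mul_le_mul_of_nonneg_left (by linarith) (by linarith)
  have p6 : Λ * KK ≤ Λ * (-Real.log κ) := mul_le_mul_of_nonneg_left hK hΛ
  have p7 : a * SS ≤ a * LS := mul_le_mul_of_nonneg_left hpoint (by linarith)
  have p8 : (1 + k / d) * h ≤ a * h := mul_le_mul_of_nonneg_right hka hh0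
  have p9 : (1 + k / d) * Real.log N ≤ (1 + k / d) * (h + Lp + C2) :=
    mul_le_mul_of_nonneg_left c2 (by linarith)
  have p10 : ε / 4 * (J * Real.log 2) ≤ ε / 4 * J := by
    have : (J : ℝ) * Real.log 2 ≤ J := mul_le_of_le_one_right hJ0 hlog
    exact mul_le_mul_of_nonneg_left this (by positivity)
  have p11 : (a + k) * ε₁ * J ≤ ε / 4 * J := mul_le_mul_of_nonneg_right hε₁' hJ0
  have p12 : k * (1 / n) * J ≤ ε / 4 * J := mul_le_mul_of_nonneg_right hkn hJ0
  have p13 : 0 ≤ ε * J := by positivity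
  -- expand
  have x1 : k / d * (Lp - C2) = k / d * Lp - k / d * C2 := by ring
  have x2 : k * ((1 - e) * (J * Real.log 2)) = k * (J * Real.log 2) - k * e * (J * Real.log 2) := by
    ring
  have x3 : k * (e * (J * Real.log 2) + (1 / n + ε₁) * J) =
      k * e * (J * Real.log 2) + k * (1 / n) * J + k * ε₁ * J := by ring
  have x4 : (1 + k / d) * (h + Lp + C2) = (1 + k / d) * h + Lp + k / d * Lp +
      (1 + k / d) * C2 := by ring
  have x5 : a * (SS + ε₁ * J - h) = a * SS + a * ε₁ * J - a * h := by ring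
  have x6 : (a + k) * ε₁ * J = a * ε₁ * J + k * ε₁ * J := by ring
  rw [x1, x2] at p1
  rw [x3] at p2
  rw [x4] at p9
  rw [x5] at p5
  rw [x6] at p11
  have x7 : a * (Sbp - J * Real.log 2) = a * Sbp - a * (J * Real.log 2) := by ring
  have x8 : k * (J * Real.log 2 - Yp) = k * (J * Real.log 2) - k * Yp := by ring
  have x9 : Λ * (KK + C1) = Λ * KK + Λ * C1 := by ring
  have x10 : a * (LS - J * Real.log 2) = a * LS - a * (J * Real.log 2) := by ring
  rw [x7, x8] at hg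
  rw [x9] at p3
  rw [x10]
  have x11 : ε / 4 * J = ε * J / 4 := by ring
  rw [x11] at p10 p11 p12
  linarith

/-- The number of points is at least the number of times of one line. -/
lemma hcb_sum_ge {d J N : ℕ} (u : Fin N → Fin d → ℝ) (v : Fin N → Fin d → ℤ)
    (A : Fin N → Finset ℤ) (hA : ∀ i, A i ⊆ Finset.Ico 0 (2 ^ J : ℤ)) (i : Fin N) :
    ((A i).card : ℝ) ≤ ∑ j ∈ Finset.Ico 0 (2 ^ J : ℤ), cl J u v A j := by
  classical
  have h0 : ∀ j, 0 ≤ cl J u v A j := fun j => by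
    unfold cl
    positivity
  have h1 : ∀ j ∈ A i, 1 ≤ cl J u v A j := by
    intro j hj
    unfold cl
    have : 0 < ((univ.filter fun i => j ∈ A i).image
        fun i => rd (pos (2 ^ J) (u i) (v i) j)).card := by
      rw [Finset.card_pos]
      exact ⟨_, Finset.mem_image_of_mem _ (Finset.mem_filter.mpr ⟨Finset.mem_univ i, hj⟩)⟩
    exact_mod_cast this
  calc ((A i).card : ℝ) = ∑ j ∈ A i, (1 : ℝ) := by simp
    _ ≤ ∑ j ∈ A i, cl J u v A j := Finset.sum_le_sum h1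
    _ ≤ ∑ j ∈ Finset.Ico 0 (2 ^ J : ℤ), cl J u v A j :=
      Finset.sum_le_sum_of_subset_of_nonneg (hA i) fun j _ _ => h0 j

/-- The number of vectors. -/
lemma hcb_card {d J N : ℕ} {v : Fin N → Fin d → ℤ} (hinj : Function.Injective v)
    (hv : ∀ i k, |v i k| ≤ 2 ^ J) : (N : ℝ) ≤ (2 * 2 ^ J + 1) ^ d := by
  classical
  have h1 : (univ.image v).card = N := by
    rw [Finset.card_image_of_injective _ hinj, Finset.card_univ, Fintype.card_fin]
  have h2 : univ.image v ⊆ Fintype.piFinset fun _ : Fin d => Finset.Icc (-(2 ^ J : ℤ)) (2 ^ J) := by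
    intro x hx
    rw [Finset.mem_image] at hx
    obtain ⟨i, -, rfl⟩ := hx
    rw [Fintype.mem_piFinset]
    intro k
    rw [Finset.mem_Icc]
    exact abs_le.mp (hv i k)
  have h3 := Finset.card_le_card h2
  rw [h1, Fintype.card_piFinset, Finset.prod_const, Finset.card_univ, Fintype.card_fin,
    Int.card_Icc] at h3
  have h4 : ((2 ^ J : ℤ) + 1 - -(2 ^ J : ℤ)).toNat = 2 * 2 ^ J + 1 := by
    have : ((2 ^ J : ℤ) + 1 - -(2 ^ J : ℤ)) = ((2 * 2 ^ J + 1 : ℕ) : ℤ) := by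
      push_cast
      ring
    rw [this, Int.toNat_natCast]
  rw [h4] at h3
  exact_mod_cast h3

/-- ROW HCB. -/
theorem hcb (h1 : SBPStmt) (h2 : NRGStmt) (h3 : RDSStmt) (h4 : CAPStmt) : HCBStmt := by
  intro d a Λ k hd hk hka haΛ hG ε hε G₀
  have hD : (0 : ℝ) < d := by exact_mod_cast hd
  have hkD : 0 ≤ k / d := by positivity
  have ha1 : 1 ≤ a := by linarith
  have ha0 : 0 < a := by linarith
  have hl2 : 0 < Real.log 2 := Real.log_pos (by norm_num)
  obtain ⟨C, J₀, hmain⟩ := hcb_large h1 h2 h3 h4 hd hk hka haΛ hG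
    (ε := a * ε * Real.log 2) (by positivity) G₀
  have hdk : (0 : ℝ) < d + k := by linarith
  have e1 : Λ * d / (d + k) / (a * d / (d + k)) = Λ / a := by field_simp
  have e2 : 1 / (a * d / (d + k)) = (1 + k / d) / a := by field_simp
  have hr0 : 0 < (1 + k / d) / a := by positivity
  have hr1 : (1 + k / d) / a ≤ 1 := by
    rw [div_le_one ha0]
    exact hka
  have hs1 : 1 ≤ Λ / a := by
    rw [one_le_div ha0]
    exact haΛ
  set r := (1 + k / d) / a with hr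
  set s := Λ / a with hs
  have hB : (0 : ℝ) < (2 * 2 ^ J₀ + 1) ^ d := by positivity
  refine ⟨min (Real.exp (-(C / a))) (((2 * 2 ^ J₀ + 1) ^ d : ℝ)⁻¹),
    lt_min (Real.exp_pos _) (inv_pos.mpr hB), ?_⟩
  intro J N u v A κ hκ hinj hv hA hdens hpot
  rw [e1, e2]
  have hM : (0 : ℝ) < (2 : ℝ) ^ J := by positivity
  rcases Nat.eq_zero_or_pos N with h0 | hN
  · subst h0
    have : ((0 : ℕ) : ℝ) ^ r = 0 := by
      rw [Nat.cast_zero]
      exact Real.zero_rpow hr0.ne'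
    rw [this, mul_zero, mul_zero]
    refine Finset.sum_nonneg fun j _ => ?_
    unfold cl
    positivity
  have hN' : (0 : ℝ) < N := by exact_mod_cast hN
  have hN1 : (1 : ℝ) ≤ N := by exact_mod_cast hN
  have hge := hcb_sum_ge u v A hA ⟨0, hN⟩
  have hge2 := (hdens ⟨0, hN⟩).trans hge
  have hSpos : 0 < ∑ j ∈ Finset.Ico 0 (2 ^ J : ℤ), cl J u v A j :=
    lt_of_lt_of_le (by positivity) hge2
  rcases le_or_gt J₀ J with hJ | hJ
  · -- large J
    have hm := hmain J hJ N u v A κ hN hκ hinj hv hA hdens hpot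
    set LS := Real.log (∑ j ∈ Finset.Ico 0 (2 ^ J : ℤ), cl J u v A j) with hLS
    have hexp : Real.exp LS = ∑ j ∈ Finset.Ico 0 (2 ^ J : ℤ), cl J u v A j :=
      Real.exp_log hSpos
    have hm2 : r * Real.log N ≤ LS - J * Real.log 2 - s * Real.log κ + C / a +
        ε * (J * Real.log 2) := by
      have q1 : r * Real.log N = ((1 + k / d) * Real.log N) / a := by
        rw [hr]
        ring
      rw [q1, div_le_iff₀ ha0]
      have q2 : (LS - J * Real.log 2 - s * Real.log κ + C / a + ε * (J * Real.log 2)) * a =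
          a * (LS - J * Real.log 2) + Λ * (-Real.log κ) + C + a * ε * Real.log 2 * J := by
        rw [hs]
        field_simp
        ring
      rw [q2]
      exact hm
    rw [← hexp]
    have hf1 : ((2 : ℝ) ^ J) ^ (-ε) = Real.exp (-(ε * (J * Real.log 2))) := by
      rw [Real.rpow_def_of_pos hM, Real.log_pow]
      congr 1
      ring
    have hf2 : (2 : ℝ) ^ J = Real.exp (J * Real.log 2) := by
      rw [← Real.log_pow, Real.exp_log hM]
    have hf3 : κ ^ s = Real.exp (s * Real.log κ) := by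
      rw [Real.rpow_def_of_pos hκ]
      congr 1
      ring
    have hf4 : (N : ℝ) ^ r = Real.exp (r * Real.log N) := by
      rw [Real.rpow_def_of_pos hN']
      congr 1
      ring
    have hstep : Real.exp (-(C / a)) * ((2 : ℝ) ^ J) ^ (-ε) * (2 ^ J * κ ^ s * (N : ℝ) ^ r) ≤
        Real.exp LS := by
      rw [hf1, hf3, hf4]
      rw [show ((2 : ℝ) ^ J * Real.exp (s * Real.log κ) * Real.exp (r * Real.log N)) =
        Real.exp (J * Real.log 2) * Real.exp (s * Real.log κ) * Real.exp (r * Real.log N) by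
          rw [← hf2]]
      rw [← Real.exp_add, ← Real.exp_add, ← Real.exp_add, ← Real.exp_add]
      refine Real.exp_le_exp.mpr ?_
      linarith
    refine le_trans ?_ hstep
    have hx : 0 ≤ ((2 : ℝ) ^ J) ^ (-ε) := by positivity
    have hy : 0 ≤ (2 : ℝ) ^ J * κ ^ s * (N : ℝ) ^ r := by positivity
    exact mul_le_mul_of_nonneg_right (mul_le_mul_of_nonneg_right (min_le_left _ _) hx) hy
  · -- small J
    have hκ1 : κ ≤ 1 := by
      have q1 := Finset.card_le_card (hA ⟨0, hN⟩)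
      rw [Int.card_Ico] at q1
      have q2 : ((2 ^ J : ℤ) - 0).toNat = 2 ^ J := by
        have : ((2 ^ J : ℤ) - 0) = ((2 ^ J : ℕ) : ℤ) := by
          push_cast
          ring
        rw [this, Int.toNat_natCast]
      rw [q2] at q1
      have q3 : ((A ⟨0, hN⟩).card : ℝ) ≤ 2 ^ J := by exact_mod_cast q1
      have q4 := (hdens ⟨0, hN⟩).trans q3
      by_contra hc
      push Not at hc
      nlinarith
    have hks : κ ^ s ≤ κ := by
      have := Real.rpow_le_rpow_of_exponent_ge hκ hκ1 hs1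
      rwa [Real.rpow_one] at this
    have hNr : (N : ℝ) ^ r ≤ (2 * 2 ^ J₀ + 1) ^ d := by
      have q1 : (N : ℝ) ^ r ≤ N := by
        have := Real.rpow_le_rpow_of_exponent_le hN1 hr1
        rwa [Real.rpow_one] at this
      have q2 := hcb_card hinj hv
      have q3 : (2 * (2 : ℝ) ^ J + 1) ^ d ≤ (2 * 2 ^ J₀ + 1) ^ d := by
        have : (2 : ℝ) ^ J ≤ 2 ^ J₀ := pow_le_pow_right₀ (by norm_num) hJ.le
        exact pow_le_pow_left₀ (by positivity) (by linarith) d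
      exact q1.trans (q2.trans q3)
    have hfe : ((2 : ℝ) ^ J) ^ (-ε) ≤ 1 := by
      refine Real.rpow_le_one_of_one_le_of_nonpos ?_ (by linarith)
      exact one_le_pow₀ (by norm_num)
    have hfe0 : 0 ≤ ((2 : ℝ) ^ J) ^ (-ε) := by positivity
    have hc0 : 0 ≤ min (Real.exp (-(C / a))) (((2 * 2 ^ J₀ + 1) ^ d : ℝ)⁻¹) :=
      (lt_min (Real.exp_pos _) (inv_pos.mpr hB)).le
    calc min (Real.exp (-(C / a))) (((2 * 2 ^ J₀ + 1) ^ d : ℝ)⁻¹) * ((2 : ℝ) ^ J) ^ (-ε) *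
          (2 ^ J * κ ^ s * (N : ℝ) ^ r)
        ≤ (((2 * 2 ^ J₀ + 1) ^ d : ℝ)⁻¹) * 1 * (2 ^ J * κ * (2 * 2 ^ J₀ + 1) ^ d) := by
          gcongr
          exact min_le_right _ _
      _ = κ * 2 ^ J := by
          field_simp
      _ ≤ _ := hge2

end Pool.LQ
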