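import Pool.Agent.H60.LQ.Cfg

/-!
# LQ, row AIS2: points of the family of the lines 2 given `Y`
-/

set_option autoImplicit false

namespace Pool.LQ

open Finset Real
open Pool.Agent.H49.Ent Pool.Agent.H32.Dense Pool.KTH

theorem ais2 (hC : CHD2Stmt) (hU : UPT2Stmt) : AIS2Stmt := by
  intro d
  obtain ⟨C₂, hC₂, h2⟩ := (hC d).2
  obtain ⟨C₃, hC₃, h3⟩ := (hU d).2.2.2
  refine ⟨C₂ + C₃, by positivity, fun J F L sb K G h => ?_⟩
  have hlog : 0 ≤ Real.log ((J : ℝ) + 2) := Real.log_nonneg (by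
    have : (0 : ℝ) ≤ J := Nat.cast_nonneg J
    linarith)
  have e2 : CH F.q F.Y (fun w => ((F.A₂ w, F.O w), F.TY w, F.Z w)) ≤
      C₂ * (en F + 1 + Real.log (J + 2)) := h2 J F
  have e3 : CH F.q F.TY F.Z - lm J ≤ C₃ * (en F + 1 + Real.log (J + 2)) := h3 J F
  have hge := h.ge
  have m2 : C₂ * (en F + 1 + Real.log (J + 2)) ≤ C₂ * (G + 1 + Real.log (J + 2)) :=
    mul_le_mul_of_nonneg_left (by linarith) hC₂
  have m3 : C₃ * (en F + 1 + Real.log (J + 2)) ≤ C₃ * (G + 1 + Real.log (J + 2)) :=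
    mul_le_mul_of_nonneg_left (by linarith) hC₃
  -- the points
  have e4 : CH F.q (fun w => (F.A₂ w, F.Y w)) F.Z = F.yh + CH F.q F.A₂ (fun w => (F.Y w, F.Z w)) :=
    CH_chain F.hq _ _ _
  have e5 : F.FI.sb = CH F.q F.A₂ (fun w => (F.Y w, F.Z w)) := rfl
  -- `H(A₂, O, Y)`
  have e7 : CH F.q (fun w => (F.O w, (F.A₂ w, F.Y w))) F.Z =
      CH F.q (fun w => (F.A₂ w, F.Y w)) F.Z + F.xi := by
    rw [CH_chain F.hq]
    have h4 : CH F.q F.O (fun w => ((F.A₂ w, F.Y w), F.Z w)) = F.xi := by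
      refine CH_congr F.hq ?_ ?_ ?_ ?_ <;>
      · intro ω ω' _ _ h
        try simp only [Prod.mk.injEq] at h ⊢
        tauto
    rw [h4]
  have e8 : CH F.q (fun w => (F.O w, (F.A₂ w, F.Y w))) F.Z =
      CH F.q (fun w => (F.Y w, (F.A₂ w, F.O w))) F.Z := by
    refine CH_congr F.hq ?_ ?_ ?_ ?_ <;>
    · intro ω ω' _ _ h
      try simp only [Prod.mk.injEq] at h ⊢
      tauto
  have e9 : CH F.q (fun w => (F.Y w, (F.A₂ w, F.O w))) F.Z =
      CH F.q (fun w => (F.A₂ w, F.O w)) F.Z + CH F.q F.Y (fun w => ((F.A₂ w, F.O w), F.Z w)) :=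
    CH_chain F.hq _ _ _
  have e10 : CH F.q (fun w => (F.A₂ w, F.O w)) F.Z ≤ CH F.q F.A₂ F.Z + F.xh :=
    CH_subadd F.hq _ _ _
  have e11 : CH F.q F.Y (fun w => ((F.A₂ w, F.O w), F.Z w)) ≤
      CH F.q F.TY F.Z + CH F.q F.Y (fun w => ((F.A₂ w, F.O w), F.TY w, F.Z w)) := by
    have h4 := CH_le_add F.hq F.Y F.TY (fun w => ((F.A₂ w, F.O w), F.Z w))
    have h5 : CH F.q F.TY (fun w => ((F.A₂ w, F.O w), F.Z w)) ≤ CH F.q F.TY F.Z := by
      refine CH_mono_cond F.hq ?_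
      intro ω ω' _ _ h
      exact (Prod.ext_iff.mp h).2
    have h6 : CH F.q F.Y (fun w => (F.TY w, ((F.A₂ w, F.O w), F.Z w))) =
        CH F.q F.Y (fun w => ((F.A₂ w, F.O w), F.TY w, F.Z w)) := by
      refine CH_congr F.hq ?_ ?_ ?_ ?_ <;>
      · intro ω ω' _ _ h
        try simp only [Prod.mk.injEq] at h ⊢
        tauto
    linarith
  have e12 := h.sA₂
  show F.FI.sb - lm J - (sb + F.xh - F.yh - F.xi) ≤
    0 * K + (C₂ + C₃) * (G + 1 + Real.log (J + 2))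
  linarith

end Pool.LQ
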