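import Pool.Agent.H60.LQ.Cfg
import Pool.Agent.H23.KTH.DRV

/-!
# LQ, row DRV2: the deficits of the times of the derived families
-/

set_option autoImplicit false

namespace Pool.LQ

open Finset Real
open Pool.Agent.H49.Ent Pool.Agent.H32.Dense Pool.KTH

theorem drv2 (hUFC : UFC2Stmt) (hUFD : UFD2Stmt) : DRV2Stmt := by
  intro d
  obtain ⟨C1, hC1, h1⟩ := (hUFC d).2.2.1
  obtain ⟨C2, hC2, h2⟩ := (hUFD d).2.2.1
  refine ⟨⟨C1, hC1, fun J F L sb K G hF => ?_⟩, ⟨C2, hC2, fun J F L sb K G hF => ?_⟩⟩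
  · have a1 := h1 J F L sb K G hF
    have b1 := CH_mono_cond F.hq (X := F.r) (det_O F)
    simp only at a1 ⊢
    unfold KL
    linarith
  · have a2 := h2 J F L sb K G hF
    have b2 := CH_mono_cond F.hq (X := F.ta) (det_Y F)
    simp only at a2 ⊢
    unfold KI
    linarith

end Pool.LQ
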